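import Pool.Agent.Run7.h260.VU.Main
import Pool.Agent.H756R3.J.Cont
import Pool.Agent.H105R3.JSanCurl
import Pool.Agent.H309R4.Jones.SanU
import Pool.Agent.H550R3.Jones.SanSkein699

/-!
# The complexified volume conjecture along the odd integers for the Turk's head braids with any number
of full twists

The links are the closures of the 3-braids `Δ^{2 m} (s_1 s_2⁻¹)^n`, `Δ = s_1 s_2 s_1`, where `n ≥ 1` and
the number `m` of full twists is any integer, positive, negative or zero: knots if `n` is not
divisible by `3`, links with three components if it is.  The statement is for all of them but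
finitely many pairs `(n, m)`: for `n + |m| ≥ M`.  For `m = 0` they are the Turk's head links, which are
alternating; for `m ≠ 0` they are not alternating, with finitely many exceptions (`m = 1`: `n = 1` is the
torus knot `T(2, 5)`, `n = 2` the sum of two trefoil knots).

The invariants are defined from the R-matrix of `U_q(sl_2)`, with `v = q^{1/2}` and
`{k} = v^k - v^{-k}`.  The `N`-coloured Jones polynomial `cjones N n w v` of the closure of a braid
word `w` on `n + 1` strands is the entry at the highest weight vector of the partial quantum trace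
(over all strands but the first one) of the operator of `w` on the tensor power of the
`N`-dimensional irreducible representation.  The crossings carry the framing correction and the
unknot has value `1`.  The Kashaev invariant is its value at `v = exp (π i / N)`, that is
`q = exp (2 π i / N)`.

The complement of the closure of `(s_1 s_2⁻¹)^n` and of the braid axis is the mapping torus of the
`n`-th power of a homeomorphism of the 4-punctured sphere, and it has a canonical (layered) ideal
triangulation with `2 n` layers of two tetrahedra.  The closure of `Δ^{2 m} (s_1 s_2⁻¹)^n` is obtained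
from it by Dehn filling of the braid axis.  Its volume is given by the theorem of Casson and Rivin,
see the section on the hyperbolic volume, and its Chern-Simons invariant by Neumann's formula.
-/

set_option autoImplicit false

namespace Pool.Agent.Results.MP_b30479_gt.AllTwistsOdd

open Finset Filter Topology

/-! ### The coloured Jones polynomial -/

/-- `{n} = v^n - v^{-n}` -/
noncomputable def br (v : ℂ) (n : ℤ) : ℂ := v ^ n - v ^ (-n)

/-- `{n}! = {1} {2} ⋯ {n}` -/
noncomputable def brf (v : ℂ) (n : ℕ) : ℂ := ∏ j ∈ range n, br v ((j : ℤ) + 1)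

/-- The positive crossing: the R-matrix of `U_q(sl_2)` on `V_N ⊗ V_N`, `V_N` with basis
`e_0, …, e_{N-1}`, times the framing factor `v^{-(N^2-1)/2}`; `crossP N v p q` is the coefficient
of `e_{p.1} ⊗ e_{p.2}` in the image of `e_{q.1} ⊗ e_{q.2}`:
`e_i ⊗ e_j ↦ ∑_n v^{-(N-1)(1+i+j) + 2(i-n)(j+n) + n(n-1)/2}
({j+n}! / ({j}! {n}!)) ∏_{t<n} {N-i+t} e_{j+n} ⊗ e_{i-n}`. -/
noncomputable def crossP (N : ℕ) (v : ℂ) : Matrix (Fin N × Fin N) (Fin N × Fin N) ℂ :=
  fun p q => if (p.1 : ℕ) + p.2 = q.1 + q.2 ∧ (q.2 : ℕ) ≤ p.1 then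
    v ^ (-((N : ℤ) - 1) * (1 + (q.1 : ℕ) + (q.2 : ℕ)) + 2 * (p.1 : ℕ) * (p.2 : ℕ)) *
      v ^ (((p.1 : ℕ) - q.2) * ((p.1 : ℕ) - q.2 - 1) / 2) *
      (brf v p.1 / (brf v q.2 * brf v ((p.1 : ℕ) - q.2))) *
      ∏ t ∈ range ((p.1 : ℕ) - q.2), br v ((N : ℤ) - (q.1 : ℕ) + t)
    else 0

/-- The negative crossing, inverse of `crossP N v`:
`e_i ⊗ e_j ↦ ∑_n (-1)^n v^{(N-1)(1+i+j) - 2ij - n(n-1)/2}
({i+n}! / ({i}! {n}!)) ∏_{t<n} {N-j+t} e_{j-n} ⊗ e_{i+n}`. -/
noncomputable def crossN (N : ℕ) (v : ℂ) : Matrix (Fin N × Fin N) (Fin N × Fin N) ℂ :=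
  fun p q => if (p.1 : ℕ) + p.2 = q.1 + q.2 ∧ (q.1 : ℕ) ≤ p.2 then
    (-1) ^ ((p.2 : ℕ) - q.1) *
      v ^ (((N : ℤ) - 1) * (1 + (q.1 : ℕ) + (q.2 : ℕ)) - 2 * (q.1 : ℕ) * (q.2 : ℕ)) /
      v ^ (((p.2 : ℕ) - q.1) * ((p.2 : ℕ) - q.1 - 1) / 2) *
      (brf v p.2 / (brf v q.1 * brf v ((p.2 : ℕ) - q.1))) *
      ∏ t ∈ range ((p.2 : ℕ) - q.1), br v ((N : ℤ) - (q.2 : ℕ) + t)
    else 0

/-- The braid generator `s_k` on `n` strands (it acts on the strands number `k` and `k + 1`,
counted from `0`) by the crossing matrix `A`. -/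
def gen {ι : Type} [DecidableEq ι] (A : Matrix (ι × ι) (ι × ι) ℂ) (n k : ℕ) :
    Matrix (Fin n → ι) (Fin n → ι) ℂ :=
  fun s t => if h : k + 1 < n then
    (if ∀ j : Fin n, (j : ℕ) ≠ k → (j : ℕ) ≠ k + 1 → s j = t j then
      A (s ⟨k, by omega⟩, s ⟨k + 1, h⟩) (t ⟨k, by omega⟩, t ⟨k + 1, h⟩) else 0)
    else (if s = t then 1 else 0)

/-- The operator of a braid word on `n` strands: the letter `(k, true)` is `s_k`, the letter
`(k, false)` is its inverse; `P` and `Q` are the matrices of the two crossings. -/
def rep {ι : Type} [Fintype ι] [DecidableEq ι] (P Q : Matrix (ι × ι) (ι × ι) ℂ) (n : ℕ)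
    (w : List (ℕ × Bool)) : Matrix (Fin n → ι) (Fin n → ι) ℂ :=
  (w.map fun g => gen (if g.2 then P else Q) n g.1).prod

/-- The partial trace over all strands but the first one, with weights `k`; `n + 1` strands. -/
def tail {ι : Type} [Fintype ι] (k : ι → ℂ) (n : ℕ)
    (A : Matrix (Fin (n + 1) → ι) (Fin (n + 1) → ι) ℂ) : Matrix ι ι ℂ :=
  fun i j => ∑ s : Fin n → ι, (∏ x, k (s x)) * A (Fin.cons i s) (Fin.cons j s)

/-- The `N`-coloured Jones polynomial (unknot `= 1`) of the closure of the braid word `w` on
`n + 1` strands, at `q = v^2`: the entry at the highest weight vector `e_0` of the partial quantum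
trace, with the weights `v^{N-1-2x}` of `K`. -/
noncomputable def cjones (N n : ℕ) (w : List (ℕ × Bool)) (v : ℂ) : ℂ :=
  if h : 0 < N then
    tail (fun x : Fin N => v ^ ((N : ℤ) - 1 - 2 * (x : ℕ))) n
      (rep (crossP N v) (crossN N v) (n + 1) w) ⟨0, h⟩ ⟨0, h⟩ else 0

/-! ### The knots -/

/-- The braid `(s_1 s_2⁻¹)^n` on three strands; the strands are numbered `0`, `1`, `2`, and `s_1`,
`s_2` are the generators number `0` and `1`. -/
def turk (n : ℕ) : List (ℕ × Bool) := (List.replicate n [(0, true), (1, false)]).flatten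

/-- `m` full twists `(s_1 s_2 s_1)^{2 m}`, `m` an integer (the full twist is central, so that
`(s_1^{-1} s_2^{-1} s_1^{-1})^2` is its inverse). -/
def fullTwists (m : ℤ) : List (ℕ × Bool) :=
  (List.replicate m.natAbs [(0, decide (0 ≤ m)), (1, decide (0 ≤ m)), (0, decide (0 ≤ m)),
    (0, decide (0 ≤ m)), (1, decide (0 ≤ m)), (0, decide (0 ≤ m))]).flatten

/-- The braid `Δ^{2 m} (s_1 s_2⁻¹)^n` on three strands. -/
def braid (n : ℕ) (m : ℤ) : List (ℕ × Bool) := fullTwists m ++ turk n

/-- The permutation of a word on three strands. -/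
def perm (w : List (ℕ × Bool)) : Equiv.Perm (Fin 3) :=
  (w.map fun g => if g.1 = 0 then Equiv.swap 0 1 else Equiv.swap 1 2).prod

/-- The closure of a braid on three strands is a knot: the permutation is a cycle of length three. -/
def IsKnot (w : List (ℕ × Bool)) : Prop := (perm w).IsThreeCycle

/-- `v_N = exp (π i / N)`, so that `q = v_N^2 = exp (2 π i / N)`. -/
noncomputable def root (N : ℕ) : ℂ := Complex.exp (Real.pi * Complex.I / N)

/-- The Kashaev invariant of the closure of a braid on three strands. -/
noncomputable def kashaev (w : List (ℕ × Bool)) (N : ℕ) : ℂ := cjones N 2 w (root N)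

/-! ### The hyperbolic volume

Let `M_n` be the complement of the closure of `(s_1 s_2⁻¹)^n` and of its braid axis.  It is the mapping
torus of a homeomorphism of the disc with three punctures, or of the 4-punctured sphere, with
monodromy `(R L)^n`.  The canonical ideal triangulation of `M_n` (F. Guéritaud, D. Futer, On canonical
triangulations of once-punctured torus bundles and two-bridge link complements, Geom. Topol. 10
(2006)) has `2 n` layers, numbered cyclically, each with two ideal tetrahedra, `4 n` edges and the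
cusps of the closure and of the axis.  In the layer number `k` let `a`, `b`, `c` and `a'`, `b'`, `c'` be
the dihedral angles of the two tetrahedra, `a` and `a'` those at the two diagonal exchanges.

An angle structure on the filled manifold has positive angles, in each tetrahedron the sum `π`,
around each edge the sum `2 π`, and the angular holonomy `2 π` along the curve of the cusp of the axis
which becomes the meridian of the filled solid torus.  On this cusp there are the curve `longitude`,
the boundary of the fibre, and `meridian`, a curve crossing the fibre once; the filling curve of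
`Δ^{2 m} (s_1 s_2⁻¹)^n` is `meridian - m · longitude`.  The cusps of the closure carry no condition.  By
the theorem of Casson and Rivin for Dehn fillings (D. Futer, F. Guéritaud, From angled triangulations
to hyperbolic structures) a point of maximum of the volume on the set of these angle structures is the
complete hyperbolic structure of the filled manifold, which is the complement of the closure of
`Δ^{2 m} (s_1 s_2⁻¹)^n`, and the maximum is its hyperbolic volume. -/

/-- Lobachevsky's function `Λ(x) = -∫_0^x log |2 sin t| dt`. -/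
noncomputable def Lob (x : ℝ) : ℝ := -∫ t in (0 : ℝ)..x, Real.log |2 * Real.sin t|

/-- The dihedral angles of the two ideal tetrahedra of one layer. -/
structure Layer where
  a : ℝ
  b : ℝ
  c : ℝ
  a' : ℝ
  b' : ℝ
  c' : ℝ

/-- The angular holonomy of the boundary of the fibre at the cusp of the axis. -/
noncomputable def longitude (w : ℕ → Layer) : ℝ :=
  3 * Real.pi - ((w 0).a + (w 0).b + (w 0).b' + (w 1).a + (w 0).c + (w 0).c' + (w 1).b + (w 1).b' +
    (w 2).a)

/-- The angular holonomy of a curve at the cusp of the axis which crosses every layer once. -/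
noncomputable def meridian (n : ℕ) (w : ℕ → Layer) : ℝ := ∑ k ∈ range (2 * n), (-1) ^ k * (w k).b

/-- Angle structures on the complement of the closure of `Δ^{2 m} (s_1 s_2⁻¹)^n`: the layered
triangulation has `2 n` layers (numbered cyclically), `w k` are the dihedral angles in the layer number
`k`. -/
structure IsAngle (n : ℕ) (m : ℤ) (w : ℕ → Layer) : Prop where
  /-- the layers are numbered cyclically -/
  cyclic : ∀ k, w (k + 2 * n) = w k
  /-- the angles are positive -/
  pos : ∀ k, 0 < (w k).a ∧ 0 < (w k).b ∧ 0 < (w k).c ∧ 0 < (w k).a' ∧ 0 < (w k).b' ∧ 0 < (w k).c'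
  /-- the sums in the tetrahedra -/
  tetrahedron : ∀ k, (w k).a + (w k).b + (w k).c = Real.pi ∧ (w k).a' + (w k).b' + (w k).c' = Real.pi
  /-- the sum around the first edge which begins with the layer number `k` -/
  edge : ∀ k, (w k).a' + (w (k + 1)).c + (w (k + 1)).c' + (w (k + 2)).b + (w (k + 2)).b' +
    (w (k + 3)).a = 2 * Real.pi
  /-- the sum around the second edge which begins with the layer number `k` -/
  edge' : ∀ k, (w k).a + (w (k + 1)).c + (w (k + 1)).c' + (w (k + 2)).b + (w (k + 2)).b' +
    (w (k + 3)).a' = 2 * Real.pi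
  /-- the holonomy of the filling curve -/
  filling : meridian n w - m * longitude w = 2 * Real.pi

/-- The volume of an angle structure. -/
noncomputable def vol (n : ℕ) (w : ℕ → Layer) : ℝ := ∑ k ∈ range (2 * n),
  (Lob (w k).a + Lob (w k).b + Lob (w k).c + (Lob (w k).a' + Lob (w k).b' + Lob (w k).c'))

/-! ### The Chern-Simons invariant

Neumann's formula (W. Neumann, Extended Bloch group and the Cheeger-Chern-Simons class, Geom. Topol.
8 (2004)): `i (vol + i CS) = ∑ ± L(z; p, q)` modulo `π²`, for a flattening of an ideal triangulation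
(filled cusps are allowed) with ordered vertices.

*Shapes.*  The complete structure is the angle structure of maximal volume; a tetrahedron with the
dihedral angles `a, b, c` has the shape parameters `shape a b c`, `shape b c a`, `shape c a b` at
the edges with these angles, if `a, b, c` are in the order of its orientation.

*Vertices.*  In the layer number `k` both tetrahedra have one ideal vertex `v` on the axis and three
ideal vertices `x`, `y`, `z` on the strands; the angles at the edges `v x`, `v y`, `v z` (and the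
opposite ones) are `a`, `b`, `c`, and `a'`, `b'`, `c'`.  The vertices `y`, `z`, `x` of the layer number `k`
are the vertices `x`, `y`, `z` of the layer number `k + 1`.  The first tetrahedron has the edges
`v x` of the lower fibre and `y z` of the upper fibre, the second one the edges `y z` of the lower and
`v x` of the upper fibre.  Seen from `v`, the vertices `x`, `y`, `z` are in counterclockwise order if `k`
is even, and in clockwise order if `k` is odd.

*Labels.*  A flattening assigns to the edges of each tetrahedron the logarithmic parameters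
`log z - π i A`, where `z` is the shape parameter and `A` an integer, the label (opposite edges
have the same label); the sum of the three logarithmic parameters has to be `0`, that is the sum of
the three labels is `1`.  The sum of the logarithmic parameters around every edge has to be `0`,
that is the sum of the labels is `2` (that of the angles is `2 π`).  The logarithmic parameter of
the curve along which the cusp of the axis is filled, and of all curves on the cusps of the closure,
has to be `0`, and the sum of the labels along all curves on the cusp of the axis has to be even.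

*Order.*  The vertex `v` is the first one.  The edge `y z` of the first tetrahedron of the layer number
`k` is directed from `y` to `z` if `k` is even and from `z` to `y` if `k` is odd, so that the order is
`y < z < x` and `z < y < x` in the two tetrahedra if `k` is even, `x < z < y` and `x < y < z` if `k` is odd.

*Orientation.*  The tetrahedra are positively oriented (as seen above); this is the standard
orientation of `S³` if `s_k` is a left-handed crossing (then `cjones` is the coloured Jones polynomial
in the usual convention, with `q⁻¹ V(L₊) - q V(L₋) = (q^{1/2} - q^{-1/2}) V(L₀)` up to the sign of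
`q^{1/2}`).  With the opposite convention `C` is minus the Chern-Simons invariant. -/

/-- Euler's dilogarithm `Li₂(z) = -∫_0^1 log (1 - t z) dt / t`, principal branch. -/
noncomputable def dilog (z : ℂ) : ℂ := -∫ t in (0 : ℝ)..1, Complex.log (1 - t * z) / t

/-- The extended Rogers dilogarithm of Neumann:
`L(z; p, q) = Li₂(z) + log z log(1 - z) / 2 - π² / 6 + (π i / 2) (q log z + p log(1 - z))`,
principal branches. -/
noncomputable def extRogers (z : ℂ) (p q : ℤ) : ℂ :=
  dilog z + Complex.log z * Complex.log (1 - z) / 2 - (Real.pi : ℂ) ^ 2 / 6 +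
    Real.pi * Complex.I / 2 * (q * Complex.log z + p * Complex.log (1 - z))

/-- The shape parameter of an ideal tetrahedron with the dihedral angles `a, b, c`, at the edge with
the angle `a` (`|z| = sin b / sin c`, `arg z = a`; then `1 / (1 - z)` and `1 - 1 / z` are the
parameters at the edges with the angles `b` and `c`). -/
noncomputable def shape (a b c : ℝ) : ℂ :=
  ((Real.sin b / Real.sin c : ℝ) : ℂ) * Complex.exp (Complex.I * a)

/-- The term of a tetrahedron with the vertices `v_0 < v_1 < v_2 < v_3`, if this order is that of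
its orientation: `z` is the shape parameter at the edge `v_0 v_1`, and `A`, `B` are the labels at
the edges `v_0 v_1`, `v_1 v_2` (logarithmic parameters `log z - π i A`, `- log (1 - z) - π i B`). -/
noncomputable def posTerm (z : ℂ) (A B : ℤ) : ℂ := extRogers z (-A) (-B)

/-- The term of a tetrahedron with the vertices `v_0 < v_1 < v_2 < v_3`, if this order is opposite
to its orientation: `z` is the shape parameter at the edge `v_0 v_1` (so that the cross ratio of
`v_0, v_1, v_2, v_3` is `1 / z`), and `A`, `C` are the labels at `v_0 v_1`, `v_1 v_2` (logarithmic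
parameters of the ordered tetrahedron: `log (1 / z) + π i A`, `- log (1 - 1 / z) + π i C`). -/
noncomputable def negTerm (z : ℂ) (A C : ℤ) : ℂ := -extRogers (1 / z) A C

/-- The term of a tetrahedron with the vertices `v, x, y, w` (in this orientation), of which `v` is
the first one; `a, b, c` are the angles and `A, B, C` the labels at the edges `v x`, `v y`, `v w`
(and at the opposite edges `y w`, `w x`, `x y`), and `x, y, w` are numbers which give the order of
the vertices. -/
noncomputable def tetTerm (a b c : ℝ) (A B C : ℤ) (x y w : ℤ) : ℂ :=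
  if x < y ∧ y < w then negTerm (shape a b c) A C
  else if x < w ∧ w < y then posTerm (shape a b c) A B
  else if y < w ∧ w < x then negTerm (shape b c a) B A
  else if y < x ∧ x < w then posTerm (shape b c a) B C
  else if w < x ∧ x < y then negTerm (shape c a b) C B
  else posTerm (shape c a b) C A

/-- The labels of the two tetrahedra of a layer, at the same edges as the angles. -/
structure Labels where
  a : ℤ
  b : ℤ
  c : ℤ
  a' : ℤ
  b' : ℤ
  c' : ℤ

/-- The label of the boundary of the fibre at the cusp of the axis (with the signs of `longitude`,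
which is `a'_0 + c_1 - b'_1 - a_2` by the sums in the tetrahedra). -/
def around (x : ℕ → Labels) : ℤ := (x 0).a' + (x 1).c - (x 1).b' - (x 2).a

/-- The flattenings of the filled manifold. -/
structure IsFlat (n : ℕ) (m : ℤ) (x : ℕ → Labels) : Prop where
  /-- the layers are numbered cyclically -/
  cyclic : ∀ k, x (k + 2 * n) = x k
  /-- the sums in the tetrahedra -/
  tetrahedron : ∀ k, (x k).a + (x k).b + (x k).c = 1 ∧ (x k).a' + (x k).b' + (x k).c' = 1
  /-- the sum around the first edge which begins with the layer number `k` -/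
  edge : ∀ k, (x k).a' + (x (k + 1)).c + (x (k + 1)).c' + (x (k + 2)).b + (x (k + 2)).b' +
    (x (k + 3)).a = 2
  /-- the sum around the second edge which begins with the layer number `k` -/
  edge' : ∀ k, (x k).a + (x (k + 1)).c + (x (k + 1)).c' + (x (k + 2)).b + (x (k + 2)).b' +
    (x (k + 3)).a' = 2
  /-- the boundary of the fibre at the three strands (the image of the curve `around` under the
  symmetries of the 4-punctured sphere, which exchange the two tetrahedra of two out of three
  consecutive layers) -/
  strands : ∀ k, (x k).a' + (x (k + 1)).c' - (x (k + 1)).b - (x (k + 2)).a' = 0 ∧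
    (x k).a + (x (k + 1)).c - (x (k + 1)).b' - (x (k + 2)).a' = 0 ∧
    (x k).a + (x (k + 1)).c' - (x (k + 1)).b - (x (k + 2)).a = 0
  /-- the curves along the strands, which cross every layer three times (the images of the curve
  in `filling`) -/
  along : ∀ j < 3, ∑ k ∈ range (6 * n), (-1) ^ k * (if k % 3 = j then (x k).b else (x k).b') = 0
  /-- the filling curve, as in `IsAngle` -/
  filling : ∑ k ∈ range (2 * n), (-1) ^ k * (x k).b - m * around x = 2
  /-- the parity condition at the cusp of the axis -/
  parity : Even (around x)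

/-- The sum of the extended Rogers dilogarithms over the `4 n` tetrahedra. -/
noncomputable def dilogSum (n : ℕ) (w : ℕ → Layer) (x : ℕ → Labels) : ℂ :=
  ∑ k ∈ range (2 * n), if Even k then
    tetTerm (w k).a (w k).b (w k).c (x k).a (x k).b (x k).c 2 0 1 +
      tetTerm (w k).a' (w k).b' (w k).c' (x k).a' (x k).b' (x k).c' 2 1 0
  else
    tetTerm (w k).a (w k).c (w k).b (x k).a (x k).c (x k).b 0 1 2 +
      tetTerm (w k).a' (w k).c' (w k).b' (x k).a' (x k).c' (x k).b' 0 2 1

/-- `V + i C` is the complex volume `vol + i CS` modulo `i π²` of the complement of the closure of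
`Δ^{2 m} (s_1 s_2⁻¹)^n`: `V` is the maximal volume of the angle structures, and for an angle structure
of this volume and a flattening the sum of the extended Rogers dilogarithms is `i (V + i C)` modulo
`π²` (by Neumann's theorem it is `i (vol + i CS)` modulo `π²` for every flattening). -/
structure ComplexVolume (n : ℕ) (m : ℤ) (V C : ℝ) : Prop where
  volume : IsGreatest {W : ℝ | ∃ w : ℕ → Layer, IsAngle n m w ∧ vol n w = W} V
  sum : ∃ (w : ℕ → Layer) (x : ℕ → Labels), IsAngle n m w ∧ vol n w = V ∧ IsFlat n m x ∧
    ∃ j : ℤ, dilogSum n w x = Complex.I * (V + Complex.I * C) + j * (Real.pi : ℂ) ^ 2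

/-- The Kashaev invariant of the closure of `Δ^{2 m} (s_1 s_2⁻¹)^n` with a change `e` of the framing
and a sign (for `n` divisible by `3` the crossings between different components carry a framing
correction, too; the usual normalisations are given by suitable `e` and `f`; for a knot one may take
`e = f = 0`). -/
noncomputable def J (e f : ℤ) (n : ℕ) (m : ℤ) (N : ℕ) : ℂ :=
  (-1 : ℂ) ^ (f * ((N : ℤ) - 1)) * root N ^ (e * ((N : ℤ) ^ 2 - 1)) * kashaev (braid n m) N

/-- `N → ∞` through the odd integers -/
def oddTop : Filter ℕ := atTop ⊓ 𝓟 {N | Odd N}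

/-- The asymptotic relation `a_N ∼ exp (N (V + i C) / 2 π)` along the odd integers: `a_N ≠ 0` for all large
odd `N`, `2 π log |a_N| / N → V`, `a_{N+2} / a_N → exp ((V + i C) / π)` (that is
`π log (a_{N+2} / a_N) → V + i C` modulo `2 π² i`), there are logarithms `l_N` of `a_N`, chosen coherently
(`l_{N+2} - l_N → (V + i C) / π`), with `2 π l_N / N → V + i C`, and `a_N` is asymptotic to
`N^{3/2} exp (N (V + i C) / 2 π) (φ_0 + φ_1 / N + φ_2 / N² + …)` to all orders in `1 / N`, `φ_0 ≠ 0`. -/
structure Asymptotics (a : ℕ → ℂ) (V C : ℝ) : Prop where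
  ne : ∀ᶠ N : ℕ in oddTop, a N ≠ 0
  growth : Tendsto (fun N : ℕ => 2 * Real.pi * (Real.log ‖a N‖ / N)) oddTop (𝓝 V)
  ratio : Tendsto (fun N : ℕ => a (N + 2) / a N) oddTop
    (𝓝 (Complex.exp ((V + Complex.I * C) / Real.pi)))
  logarithms : ∃ l : ℕ → ℂ, (∀ᶠ N : ℕ in oddTop, Complex.exp (l N) = a N) ∧
    Tendsto (fun N : ℕ => 2 * Real.pi * (l N / N)) oddTop (𝓝 (V + Complex.I * C)) ∧
    Tendsto (fun N : ℕ => l (N + 2) - l N) oddTop (𝓝 ((V + Complex.I * C) / Real.pi))
  expansion : ∃ φ : ℕ → ℂ, φ 0 ≠ 0 ∧ ∀ K : ℕ, ∃ B : ℝ, ∀ᶠ N : ℕ in oddTop,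
    ‖a N / ((((N : ℝ) ^ (3 / 2 : ℝ) : ℝ) : ℂ) *
      Complex.exp ((V + Complex.I * C) / (2 * Real.pi) * N)) - ∑ k ∈ range K, φ k / (N : ℂ) ^ k‖ ≤
        B / (N : ℝ) ^ K

/-! ### Checks of the definitions (not part of the result) -/

/-- For `N = 2` the crossings satisfy the skein relation of the Jones polynomial. -/
theorem skein (v : ℂ) (hv : v ≠ 0) (h1 : br v 1 ≠ 0) :
    v ^ 2 • crossP 2 v - (v ^ 2)⁻¹ • crossN 2 v =
      (v - v⁻¹) • (1 : Matrix (Fin 2 × Fin 2) (Fin 2 × Fin 2) ℂ) :=
  Pool.Agent.H550R3.Jones.taskSanSkein v hv h1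

/-- The two crossings are inverse to each other. -/
theorem cross_inverse (N : ℕ) (v : ℂ) (hv : v ≠ 0)
    (h : ∀ k : ℕ, 0 < k → k < N → br v k ≠ 0) :
    crossP N v * crossN N v = 1 ∧ crossN N v * crossP N v = 1 :=
  Pool.Agent.H309R4.Jones.SanI.taskSanInv Pool.Agent.H345J.taskMod Pool.Agent.H345J.taskInv
    Pool.Agent.H559R3.J.taskCross N v ⟨hv, h⟩

/-- The Yang-Baxter equation, for every colour. -/
theorem yang_baxter (N : ℕ) (v : ℂ) (hv : v ≠ 0) (h : ∀ k : ℕ, 0 < k → k < N → br v k ≠ 0) :
    gen (crossP N v) 3 0 * gen (crossP N v) 3 1 * gen (crossP N v) 3 0 =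
      gen (crossP N v) 3 1 * gen (crossP N v) 3 0 * gen (crossP N v) 3 1 :=
  Pool.Agent.H927R2.J.SanYB.taskSanYB Pool.Agent.H345J.taskMod Pool.Agent.H345J.taskInt
    Pool.Agent.H345J.taskInv Pool.Agent.H667J.taskHex1 Pool.Agent.H22R3.J.taskNat
    Pool.Agent.H559R3.J.taskCross N v ⟨hv, h⟩

/-- Curls may be removed: the framing is normalised. -/
theorem curl (N : ℕ) (v : ℂ) (hv : v ≠ 0) (h : ∀ k : ℕ, 0 < k → k < N → br v k ≠ 0) :
    (fun i j => ∑ x : Fin N, v ^ ((N : ℤ) - 1 - 2 * (x : ℕ)) * crossP N v (i, x) (j, x)) =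
      (1 : Matrix (Fin N) (Fin N) ℂ) ∧
    (fun i j => ∑ x : Fin N, v ^ ((N : ℤ) - 1 - 2 * (x : ℕ)) * crossN N v (i, x) (j, x)) =
      (1 : Matrix (Fin N) (Fin N) ℂ) :=
  Pool.Agent.H105R3.JSan.taskSanCurl N v ⟨hv, h⟩

/-- The unknot has the value `1`. -/
theorem unknot (N : ℕ) (v : ℂ) (hN : 0 < N) (hv : v ≠ 0)
    (h : ∀ k : ℕ, 0 < k → k < N → br v k ≠ 0) :
    cjones N 0 [] v = 1 ∧ cjones N 1 [(0, true)] v = 1 ∧ cjones N 1 [(0, false)] v = 1 :=
  Pool.Agent.H309R4.Jones.SanU.taskSanUnknot N v hN ⟨hv, h⟩

/-! ### Bridges -/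

open Run7.h260.VC in
lemma ang_iff (n : ℕ) (m : ℤ) (w : ℕ → Layer) : IsAngle n m w ↔
    AngC n m (fun k => (w k).a) (fun k => (w k).b) (fun k => (w k).c) (fun k => (w k).a')
      (fun k => (w k).b') (fun k => (w k).c') := by
  constructor
  · intro h
    exact ⟨fun k => by rw [h.cyclic], fun k => by rw [h.cyclic], fun k => by rw [h.cyclic],
      fun k => by rw [h.cyclic], fun k => by rw [h.cyclic], fun k => by rw [h.cyclic], h.pos,
      fun k => (h.tetrahedron k).1, fun k => (h.tetrahedron k).2, h.edge, h.edge', h.filling⟩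
  · intro h
    refine ⟨fun k => ?_, h.pos, fun k => ⟨h.tet k, h.tet' k⟩, h.e1, h.e2, h.fill⟩
    have e1 := h.pa k
    have e2 := h.pb k
    have e3 := h.pc k
    have e4 := h.pa' k
    have e5 := h.pb' k
    have e6 := h.pc' k
    cases h1 : w (k + 2 * n)
    cases h2 : w k
    simp only [h1, h2] at e1 e2 e3 e4 e5 e6
    rw [e1, e2, e3, e4, e5, e6]

lemma turk_eq (n : ℕ) : turk n = Pool.Agent.Y472.bw (Run7.h260.VC.wd n) := by
  rw [Pool.Agent.Y472.bw, Run7.h260.VC.wd, List.map_replicate]
  rfl

lemma kashaev_eq (n N : ℕ) (m : ℤ) : kashaev (braid n m) N = Pool.Agent.H550R3.Jones.cjones N 2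
    (Pool.Agent.Y472.ftw m ++ Pool.Agent.Y472.bw (Run7.h260.VC.wd n)) (Pool.Agent.W711.HT.vN N) := by
  rw [← turk_eq]
  rfl

lemma cont (w : List (ℕ × Bool)) (N : ℕ) : ContinuousAt (cjones N 2 w) (root N) := by
  have hv : root N = EvenVol.v0 N := rfl
  rw [hv]
  refine Pool.Agent.H756R3.J.taskCont N (EvenVol.v0 N) (Complex.exp_ne_zero _) ?_ _ _
  intro k hk0 hkN
  exact Pool.Agent.W715.VC.br_ne (by omega) (by omega)

lemma perm_append (u w : List (ℕ × Bool)) : perm (u ++ w) = perm u * perm w := by
  rw [perm, List.map_append, List.prod_append]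
  rfl

lemma perm_turk (n : ℕ) : perm (turk n) = (Equiv.swap 0 1 * Equiv.swap 1 2) ^ n := by
  induction n with
  | zero => rfl
  | succ k ih =>
    rw [turk, List.replicate_succ, List.flatten_cons, perm_append, pow_succ', ← ih]
    rfl

lemma perm_full (m : ℤ) : perm (fullTwists m) = 1 := by
  have h : ∀ (b : Bool) (k : ℕ), perm (List.replicate k
      [((0 : ℕ), b), (1, b), (0, b), (0, b), (1, b), (0, b)]).flatten = 1 := by
    intro b k
    induction k with
    | zero => rfl
    | succ k ih =>
      rw [List.replicate_succ, List.flatten_cons, perm_append, ih, mul_one]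
      cases b <;> decide
  exact h _ _

lemma three (n : ℕ) : (Equiv.swap 0 1 * Equiv.swap 1 2 : Equiv.Perm (Fin 3)) ^ n =
    (Equiv.swap 0 1 * Equiv.swap 1 2) ^ (n % 3) := by
  have h : (Equiv.swap 0 1 * Equiv.swap 1 2 : Equiv.Perm (Fin 3)) ^ 3 = 1 := by decide
  conv_lhs => rw [← Nat.div_add_mod n 3, pow_add, pow_mul, h, one_pow, one_mul]

lemma knot (n : ℕ) (m : ℤ) (h3 : ¬ 3 ∣ n) : IsKnot (braid n m) := by
  unfold IsKnot braid
  rw [perm_append, perm_full, one_mul, perm_turk, three]
  have h : n % 3 = 1 ∨ n % 3 = 2 := by omega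
  rcases h with h | h <;> rw [h] <;> unfold Equiv.Perm.IsThreeCycle <;> decide

/-- a flattening -/
lemma flat (n : ℕ) [NeZero n] (m : ℤ) : IsFlat n m (fun k => ⟨(Run7.h260.VX.lab n k).a,
    (Run7.h260.VX.lab n k).b, (Run7.h260.VX.lab n k).c, (Run7.h260.VX.lab n k).a',
    (Run7.h260.VX.lab n k).b', (Run7.h260.VX.lab n k).c'⟩) := by
  have hn : 1 ≤ n := Nat.one_le_iff_ne_zero.2 (NeZero.ne n)
  have h := Run7.h260.VX.lab_local n
  have h0 : (Run7.h260.VX.lab n 0).a' + (Run7.h260.VX.lab n 1).c - (Run7.h260.VX.lab n 1).b' -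
      (Run7.h260.VX.lab n 2).a = 0 := (h 0).2.2.2.2
  refine ⟨fun k => ?_, fun k => (h k).1, fun k => (h k).2.1, fun k => (h k).2.2.1,
    fun k => (h k).2.2.2.1, fun j hj => Run7.h260.VX.lab_along n j hj, ?_, ?_⟩
  · simp only [Run7.h260.VX.lab_per n hn k]
  · unfold around
    simp only
    rw [h0, mul_zero, sub_zero]
    exact Run7.h260.VX.lab_fill n
  · unfold around
    simp only
    rw [h0]
    exact Even.zero

lemma sum_eq (n : ℕ) (x y z x' y' z' : ℕ → ℝ) (L : ℕ → Run7.h260.VX.Lb) :
    dilogSum n (fun k => ⟨x k, y k, z k, x' k, y' k, z' k⟩)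
      (fun k => ⟨(L k).a, (L k).b, (L k).c, (L k).a', (L k).b', (L k).c'⟩) =
    Run7.h260.VX.cs n x y z x' y' z' L := rfl

lemma asym {a : ℕ → ℂ} {v : ℂ} {ψ : ℕ → ℂ} (hψ : ψ 0 ≠ 0) (hE : Pool.Agent.W719.AX.EXY a v ψ)
    {V C : ℝ} (h : (V : ℂ) + Complex.I * C = 2 * Real.pi * v) : Asymptotics a V C := by
  have hpi : (Real.pi : ℂ) ≠ 0 := by exact_mod_cast Real.pi_ne_zero
  have hle : oddTop ≤ atTop := inf_le_left
  obtain ⟨r1, -, r3, r4, l, l1, l2, l3⟩ := Pool.Agent.W460.AX.rat _ _ ψ hψ hE
  have hV : 2 * Real.pi * v.re = V := by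
    have h1 := congrArg Complex.re h
    have h2 : (2 * (Real.pi : ℂ) * v).re = 2 * Real.pi * v.re := by
      have : (2 * (Real.pi : ℂ) * v) = ((2 * Real.pi : ℝ) : ℂ) * v := by push_cast; ring
      rw [this, Complex.re_ofReal_mul]
    rw [h2] at h1
    simp at h1
    exact h1.symm
  have e2 : ((V : ℂ) + Complex.I * C) / Real.pi = 2 * v := by
    rw [h]
    field_simp
  have e3 : ((V : ℂ) + Complex.I * C) / (2 * Real.pi) = v := by
    rw [h]
    field_simp
  refine ⟨r1.filter_mono hle, ?_, ?_, ⟨l, l1.filter_mono hle, ?_, ?_⟩, ψ, hψ, fun K => ?_⟩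
  · rw [← hV]
    exact r4.mono_left hle
  · rw [e2]
    exact r3.mono_left hle
  · rw [h]
    exact l2.mono_left hle
  · rw [e2, two_mul]
    have l4 := (l3.comp (tendsto_add_atTop_nat 1)).add l3
    refine (l4.mono_left hle).congr fun N => ?_
    simp only [Function.comp]
    ring
  · obtain ⟨B, hB⟩ := hE K
    refine ⟨B, (hB.filter_mono hle).mono fun N hN => ?_⟩
    rw [e3, ← Pool.Agent.W719.AX.sqrt_cube, mul_comm v]
    exact hN

/-- **The complexified volume conjecture along the odd integers for the Turk's head braids with any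
number of full twists.**
There are `D` and `M` such that the following holds for all `n ≥ 1` and all integers `m` (positive,
negative or zero) with `n + |m| ≥ M`, that is for all but finitely many pairs `(n, m)`, and for the
closure `L` of the 3-braid `Δ^{2 m} (s_1 s_2⁻¹)^n` (the closures for `m` and `-m` are mirror images of
each other; `L` is a knot if `n` is not divisible by `3`).
(1) For every `N` the coloured Jones polynomial is continuous at `v_N`, so that `kashaev` is its
value at `q = e^(2 π i / N)` in the usual sense.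
(2) There are real numbers `V`, `C` such that `V + i C` is the complex volume of the complement of
`L`: `V` is the maximal volume of the angle structures (by Casson and Rivin a point of maximum is
the complete hyperbolic structure, and `V` is the hyperbolic volume), and `C` is modulo `π²` the
Chern-Simons invariant by Neumann's formula.  Moreover `|V - 12 n Λ(π / 3)| ≤ D / (n + |m|)`
(`12 n Λ(π / 3)` is the volume of `4 n` regular ideal tetrahedra, and of the complement of the closure
of `(s_1 s_2⁻¹)^n` with the braid axis).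
(3) For all integers `e`, `f` (framing and sign) the numbers `a_N = J_N(L)` satisfy `Asymptotics`, with
`V` and the representative `C' = C + 2 π² (e + f)` of the Chern-Simons invariant. -/
theorem result :
    ∃ D M : ℝ, 0 < M ∧ ∀ (n : ℕ) (m : ℤ), 1 ≤ n → M ≤ n + |(m : ℝ)| →
      (¬ 3 ∣ n → IsKnot (braid n m)) ∧
      (∀ N : ℕ, ContinuousAt (cjones N 2 (braid n m)) (root N)) ∧
      ∃ V C : ℝ, ComplexVolume n m V C ∧
        |V - 12 * n * Lob (Real.pi / 3)| ≤ D / (n + |(m : ℝ)|) ∧
        ∀ e f : ℤ, Asymptotics (J e f n m) V (C + 2 * Real.pi ^ 2 * (e + f)) := by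
  have hpi : (Real.pi : ℂ) ≠ 0 := by exact_mod_cast Real.pi_ne_zero
  obtain ⟨D, M, -, hM, H⟩ := Run7.h260.VU.main_all
  refine ⟨D, M, hM, fun n m hn hm => ⟨fun h3 => knot n m h3, fun N => cont _ N, ?_⟩⟩
  have : NeZero n := ⟨by omega⟩
  obtain ⟨x, y, z, x', y', z', h1, h2, h3, v, φ, h4, h5, h6, h7⟩ := H n m hm
  have hV : ((vol n (fun k => ⟨x k, y k, z k, x' k, y' k, z' k⟩) : ℝ) : ℂ) +
      Complex.I * ((2 * Real.pi * v.im : ℝ) : ℂ) = 2 * Real.pi * v := by
    have e1 : vol n (fun k => ⟨x k, y k, z k, x' k, y' k, z' k⟩) = 2 * Real.pi * v.re := h4.symm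
    rw [e1]
    push_cast
    have e2 := Complex.re_add_im v
    linear_combination (2 * Real.pi) * e2
  refine ⟨vol n (fun k => ⟨x k, y k, z k, x' k, y' k, z' k⟩), 2 * Real.pi * v.im,
    ⟨⟨⟨_, ?_, rfl⟩, ?_⟩, _, _, ?_, rfl, flat n m, 0, ?_⟩, h3, fun e f => ?_⟩
  · rw [ang_iff]
    exact h1
  · rintro W ⟨w, hw, rfl⟩
    exact h2 _ _ _ _ _ _ ((ang_iff n m w).1 hw)
  · rw [ang_iff]
    exact h1
  · rw [hV, sum_eq, h5]
    push_cast
    ring
  · have e1 : (fun N => Pool.Agent.H550R3.Jones.cjones N 2
        (Pool.Agent.Y472.ftw m ++ Pool.Agent.Y472.bw (Run7.h260.VC.wd n))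
        (Pool.Agent.W711.HT.vN N)) = kashaev (braid n m) := by
      funext N
      rw [kashaev_eq]
    rw [e1] at h7
    obtain ⟨ψ, hψ, hE⟩ := h7.frame h6 e f
    have hE' : Pool.Agent.W719.AX.EXY (J e f n m) (v + Real.pi * Complex.I * (e + f)) ψ := hE
    refine asym hψ hE' ?_
    push_cast
    push_cast at hV
    linear_combination hV

end Pool.Agent.Results.MP_b30479_gt.AllTwistsOdd
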