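import Pool.Agent.Results.MP_b30479_gt.PolyhedralAxisOdd
import Pool.Agent.N566.RX.FinS

/-!
# The complexified volume conjecture along odd integers, rings of tangles with axes, small vertices

The links are those of `Pool.Agent.Results.MP_b30479_gt.PolyhedralAxisOdd`, and all
definitions not given here are in that file: the closures of `(s_1 s_2 s_1)^{2 m} T_1 U_1 ⋯ T_k U_k`
together with their axes, where `T_i`, `U_i` are the (algebraic) tangles of `2 k` weighted planar
trees, and `m` is an integer; `jones` is their coloured Jones polynomial from the R-matrix of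
`U_q(sl_2)`, `kashaev` its value at `q = e^(2 π i / N)` with a framing and a sign, and
`ComplexVolume` says that `V + i C` is the complex volume of the complement: `V` is the maximal
volume of the angle structures of an ideal decomposition, and `C` is given by Neumann's formula.

In that file all vertices of the trees other than the roots have to be large, or to have a crossing
circle.  Here the trees may also have small vertices, with few crossings and few neighbours, no two
of them adjacent. -/

set_option autoImplicit false

namespace Pool.Agent.Results.MP_b30479_gt.PolyhedralAxisSmallVerticesOdd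

open Finset Filter Topology
open Pool.Agent.Results.MP_b30479_gt.PolyhedralAxisOdd

/-- The small vertices (`n` neighbours, weight `a`, no crossing circle): `a ≤ 0` and
`n + |a| ≥ 4`, or `n = 3` and `a = 0`, or `n = 1` and `a = -2` (a clasp), or `a > 0` and
`n + a ≥ 5`. -/
def Small (n : ℕ) (a : ℤ) : Prop :=
  (a ≤ 0 ∧ 4 ≤ (n : ℤ) + |a|) ∨ (n = 3 ∧ a = 0) ∨ (n = 1 ∧ a = -2) ∨ (0 < a ∧ 5 ≤ (n : ℤ) + a)

/-- Every vertex other than the root is large (`Tree.Big`: `K² ≤ n² + a²` or there is a crossing
circle) or small, and of two neighbouring vertices at least one is large; `g` is the statement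
that the root is large. -/
def FineBelow (K : ℕ) : Prop → Tree → Prop
  | _, .single _ _ => True
  | g, .join t c => FineBelow K g t ∧
      FineBelow K (Tree.Big K c.circle (c.children + 1) c.weight) c ∧
      (Tree.Big K c.circle (c.children + 1) c.weight ∨
        (g ∧ c.circle = false ∧ Small (c.children + 1) c.weight))

/-- The trees admitted in the ring: the root has no crossing circle, at most `D` children and a
weight of absolute value at least `M`; the other vertices are large or small, no two small vertices
being neighbours. -/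
def Admissible (K D M : ℕ) (t : Tree) : Prop :=
  t.circle = false ∧ t.children ≤ D ∧ (M : ℤ) ≤ |t.weight| ∧ FineBelow K True t

/-! ### Bridges -/

open Pool.Agent.W719.AR (Fl)
open Pool.Agent.TH563.UV (Tb AB)
open Pool.Agent.Y481.DR (tj NoC rv)
open Pool.Agent.Y481.DX (JX)
open Pool.Agent.W719.AX (EXY)
open Pool.Agent.N561 (OkT2)

lemma fineBelow_ok {K : ℕ} {K' : ℝ} (h0 : 0 < K') (hK : K' ≤ K) (t : Tree) :
    ∀ (g : Prop) (gb : Bool), (g → gb = true) → FineBelow K g t →
      OkT2 Pool.Agent.N566.PS.TyS K' gb (toTb t) := by
  induction t with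
  | single b a => intro g gb _ _; trivial
  | join t c iht ihc =>
    rintro g gb hg ⟨h1, h2, h3⟩
    refine ⟨iht g gb hg h1, ?_⟩
    rw [bl_to, nc_to, wt_to]
    by_cases hbig : Tree.Big K c.circle (c.children + 1) c.weight
    · exact Or.inl ⟨big_to h0 hK hbig, ihc _ true (fun _ => rfl) h2⟩
    · rcases h3 with h3 | ⟨h3, h4⟩
      · exact absurd h3 hbig
      · exact Or.inr ⟨hg h3, h4, ihc _ false (fun h => absurd h hbig) h2⟩

lemma ok_ofV {K M : ℝ} (hK : 0 < K) {D : ℕ} {ts : List (Tree × Tree)}
    (h : ∀ p ∈ ts, Admissible ⌈K⌉₊ D ⌈M⌉₊ p.1 ∧ Admissible ⌈K⌉₊ D ⌈M⌉₊ p.2) :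
    Pool.Agent.N566.RX.OkRV Pool.Agent.N566.PS.TyS K D M (toTs ts) := by
  constructor
  · intro q hq
    obtain ⟨p, hp, rfl⟩ := List.mem_map.1 hq
    simp only [bl_to]
    exact ⟨(h p hp).1.1, (h p hp).2.1⟩
  · intro q hq
    obtain ⟨p, hp, rfl⟩ := List.mem_map.1 hq
    obtain ⟨⟨_, a2, a3, a4⟩, ⟨_, b2, b3, b4⟩⟩ := h p hp
    simp only [nc_to, wt_to]
    exact ⟨fineBelow_ok hK (Nat.le_ceil K) _ _ _ (fun _ => rfl) a4,
      fineBelow_ok hK (Nat.le_ceil K) _ _ _ (fun _ => rfl) b4, a2, b2,
      bound_of a3, bound_of b3⟩

/-- **The complexified volume conjecture along the odd integers for rings of arborescent tangles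
with small vertices together with their axes.**  There is an absolute constant `K`, and for all `D` and `k ≥ 1` there is
an `M` such that the following holds for every integer `m` and for the link `L` which consists of
the closure of `(s_1 s_2 s_1)^{2 m} T_1 U_1 ⋯ T_k U_k`, with the tangles of `2 k` weighted trees,
and of its axis, if the roots of the trees have weights of absolute value at least `M` and at most
`D` children, and every other vertex (`n` neighbours, weight `a`) is large, that is `K² ≤ n² + a²`
or it has a crossing circle, or small, that is `a ≤ 0` and `n + |a| ≥ 4`, or `n = 3` and `a = 0`, or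
`n = 1` and `a = -2`, or `a > 0` and `n + a ≥ 5`, and if no two small vertices are neighbours.
(1) For every `N ≥ 1` the coloured Jones polynomial is continuous at `v_N`, so that `kashaev` is its
value at `q = e^(2 π i / N)` in the usual sense.
(2) There are real numbers `V`, `C` such that `V + i C` is the complex volume of the complement of
`L`: `V` is the maximal volume of the angle structures (by Casson and Rivin a point of maximum is
the complete hyperbolic structure, and `V` is the hyperbolic volume), and `C` is modulo `π²` the
Chern-Simons invariant by Neumann's formula, for every flattening.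
(3) Along the odd integers `n`, with `a_n = J_n(L)`, for all framings `e` and signs `f`, and with the
representative `C' = C + 2 π² (e + f)` of the Chern-Simons invariant: `a_n ≠ 0` for large `n`,
`2 π log |a_n| / n → V`, `a_{n+2} / a_n → exp ((V + i C') / π)`, and
`a_n / (n^{3/2} exp (n (V + i C') / 2 π))` has a limit other than `0`. -/
theorem result : ∃ K : ℕ, ∀ D k : ℕ, 1 ≤ k → ∃ M : ℕ, ∀ (m : ℤ) (ts : List (Tree × Tree)),
    ts.length = k → (∀ p ∈ ts, Admissible K D M p.1 ∧ Admissible K D M p.2) →
    (∀ N : ℕ, 1 ≤ N → ContinuousAt (jones m ts N) (root N)) ∧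
    ∃ V C : ℝ, ComplexVolume ts V C ∧ ∀ e f : ℤ,
      Asymptotics (kashaev e f m ts) V (C + 2 * Real.pi ^ 2 * (e + f)) := by
  obtain ⟨K, hK, -, h⟩ := Pool.Agent.N566.RX.allf_s
  refine ⟨⌈K⌉₊, fun D k hk => ?_⟩
  obtain ⟨M, hM⟩ := h D k hk
  refine ⟨⌈M⌉₊, fun m ts hlen hok => ⟨fun N hN => cont _ _ hN, ?_⟩⟩
  obtain ⟨V, C, h1, h2⟩ := (hM (toTs ts) m (by rw [toTs_len, hlen]) (ok_ofV hK hok)).2
  rw [toTs_len] at h1
  refine ⟨V, C, complexVolume_of h1, fun e f => ?_⟩
  obtain ⟨y, hy, hE⟩ := h2 e f
  refine asymptotics_of hy (J := kashaev e f m ts) ?_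
  have e1 : kashaev e f m ts = fun N => Pool.Agent.Y482.DX.fr e f N *
      JX (toTs ts) m N (Pool.Agent.W711.HT.vN N) := funext fun N => kashaev_eq e f m ts N
  rw [e1]
  exact hE

end Pool.Agent.Results.MP_b30479_gt.PolyhedralAxisSmallVerticesOdd
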