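import Pool.Agent.Run7.h116.VY.Cor
import Pool.Agent.H756R3.J.Cont
import Pool.Agent.H105R3.JSanCurl
import Pool.Agent.H309R4.Jones.SanU
import Pool.Agent.H550R3.Jones.SanSkein699

/-!
# The complexified volume conjecture at odd roots of unity for the closures of the braids
# `Δ^{2 m} (s_1 s_2⁻¹)^n` with their axes

For a 3-braid `w` let `L(w)` be the link which consists of the closure of `w` and of the braid axis,
written as the closure of a braid on four strands: strand number `0` runs once around the other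
three strands (this is the axis) and the last three strands carry `w`.  The link `L_{m,n}` is
`L(Δ^{2 m} (s_1 s_2⁻¹)^n)`, `Δ = s_1 s_2 s_1`, with `m` any integer and `n ≥ 1`.  It has four components
if `3` divides `n` and two otherwise.

The complement of `L_{m,n}` is homeomorphic to the complement of `L_{0,n}` (cut along a disc which
spans the axis and glue again after `m` full twists), a bundle over the circle whose fibre is the
sphere with four punctures, which is the union of `4 n` regular ideal tetrahedra.  So it is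
hyperbolic of volume `4 n v_3 = 8 n Λ(π/6) = 12 n Λ(π/3)`, and it has an orientation-reversing
self-homeomorphism, so that its Chern-Simons invariant is `0` modulo `π²`.  The links `L_{m,n}` with
different `m` are different and the Kashaev invariants depend on `m`: the leading coefficient is
`- K(n) (1 - i √3 m / n)^{-1/2}` with `K(n)² = (√3 / (2 n)) / (t^n + t^{-n} - 2)`, where
`t = (5 + √21) / 2`, so that `t^n + t^{-n}` is the trace of `A^n` for a matrix `A` with determinant `1`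
and trace `5`.  (The shape of the cusp of the axis is `τ = - i √3 / n`, with respect to the meridian
and the longitude of the axis, and the one-loop invariant changes by the factor `(1 + m τ)^{-1/2}` if
the meridian is replaced by the meridian of `L_{m,n}`.)

The invariants are defined from the R-matrix of `U_q(sl_2)`, with `v = q^{1/2}` and
`{k} = v^k - v^{-k}`.  The `N`-coloured Jones polynomial `cjones N n w v` of the closure of a braid
word `w` on `n + 1` strands is the entry at the highest weight vector of the partial quantum trace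
(over all strands but the first one) of the operator of `w` on the tensor power of the
`N`-dimensional irreducible representation.  The crossings carry the framing correction and the
unknot has value `1`.  The Kashaev invariant is its value at `v = exp (π i / N)`, that is
`q = exp (2 π i / N)`.
-/

set_option autoImplicit false

namespace Pool.Agent.Results.MP_b30479_gt.TwistedBraidAxis

open Finset Filter Topology

/-- `{n} = v^n - v^{-n}` -/
noncomputable def br (v : ℂ) (n : ℤ) : ℂ := v ^ n - v ^ (-n)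

/-- `{n}! = {1} {2} ⋯ {n}` -/
noncomputable def brf (v : ℂ) (n : ℕ) : ℂ := ∏ j ∈ range n, br v ((j : ℤ) + 1)

/-- The positive crossing: the R-matrix of `U_q(sl_2)` on `V_N ⊗ V_N`, `V_N` with basis
`e_0, …, e_{N-1}`, times the framing factor `v^{-(N^2-1)/2}`; `crossP N v p q` is the coefficient
of `e_{p.1} ⊗ e_{p.2}` in the image of `e_{q.1} ⊗ e_{q.2}`:
`e_i ⊗ e_j ↦ ∑_n v^{-(N-1)(1+i+j) + 2(i-n)(j+n) + n(n-1)/2}
({j+n}! / ({j}! {n}!)) ∏_{t<n} {N-i+t} e_{j+n} ⊗ e_{i-n}`. -/
noncomputable def crossP (N : ℕ) (v : ℂ) : Matrix (Fin N × Fin N) (Fin N × Fin N) ℂ :=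
  fun p q => if (p.1 : ℕ) + p.2 = q.1 + q.2 ∧ (q.2 : ℕ) ≤ p.1 then
    v ^ (-((N : ℤ) - 1) * (1 + (q.1 : ℕ) + (q.2 : ℕ)) + 2 * (p.1 : ℕ) * (p.2 : ℕ)) *
      v ^ (((p.1 : ℕ) - q.2) * ((p.1 : ℕ) - q.2 - 1) / 2) *
      (brf v p.1 / (brf v q.2 * brf v ((p.1 : ℕ) - q.2))) *
      ∏ t ∈ range ((p.1 : ℕ) - q.2), br v ((N : ℤ) - (q.1 : ℕ) + t)
    else 0

/-- The negative crossing, inverse of `crossP N v`:
`e_i ⊗ e_j ↦ ∑_n (-1)^n v^{(N-1)(1+i+j) - 2ij - n(n-1)/2}
({i+n}! / ({i}! {n}!)) ∏_{t<n} {N-j+t} e_{j-n} ⊗ e_{i+n}`. -/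
noncomputable def crossN (N : ℕ) (v : ℂ) : Matrix (Fin N × Fin N) (Fin N × Fin N) ℂ :=
  fun p q => if (p.1 : ℕ) + p.2 = q.1 + q.2 ∧ (q.1 : ℕ) ≤ p.2 then
    (-1) ^ ((p.2 : ℕ) - q.1) *
      v ^ (((N : ℤ) - 1) * (1 + (q.1 : ℕ) + (q.2 : ℕ)) - 2 * (q.1 : ℕ) * (q.2 : ℕ)) /
      v ^ (((p.2 : ℕ) - q.1) * ((p.2 : ℕ) - q.1 - 1) / 2) *
      (brf v p.2 / (brf v q.1 * brf v ((p.2 : ℕ) - q.1))) *
      ∏ t ∈ range ((p.2 : ℕ) - q.1), br v ((N : ℤ) - (q.2 : ℕ) + t)
    else 0

/-- The braid generator `s_k` on `n` strands (it acts on the strands number `k` and `k + 1`,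
counted from `0`) by the crossing matrix `A`. -/
def gen {ι : Type} [DecidableEq ι] (A : Matrix (ι × ι) (ι × ι) ℂ) (n k : ℕ) :
    Matrix (Fin n → ι) (Fin n → ι) ℂ :=
  fun s t => if h : k + 1 < n then
    (if ∀ j : Fin n, (j : ℕ) ≠ k → (j : ℕ) ≠ k + 1 → s j = t j then
      A (s ⟨k, by omega⟩, s ⟨k + 1, h⟩) (t ⟨k, by omega⟩, t ⟨k + 1, h⟩) else 0)
    else (if s = t then 1 else 0)

/-- The operator of a braid word on `n` strands: the letter `(k, true)` is `s_k`, the letter
`(k, false)` is its inverse; `P` and `Q` are the matrices of the two crossings. -/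
def rep {ι : Type} [Fintype ι] [DecidableEq ι] (P Q : Matrix (ι × ι) (ι × ι) ℂ) (n : ℕ)
    (w : List (ℕ × Bool)) : Matrix (Fin n → ι) (Fin n → ι) ℂ :=
  (w.map fun g => gen (if g.2 then P else Q) n g.1).prod

/-- The partial trace over all strands but the first one, with weights `k`; `n + 1` strands. -/
def tail {ι : Type} [Fintype ι] (k : ι → ℂ) (n : ℕ)
    (A : Matrix (Fin (n + 1) → ι) (Fin (n + 1) → ι) ℂ) : Matrix ι ι ℂ :=
  fun i j => ∑ s : Fin n → ι, (∏ x, k (s x)) * A (Fin.cons i s) (Fin.cons j s)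

/-- The `N`-coloured Jones polynomial (unknot `= 1`) of the closure of the braid word `w` on
`n + 1` strands, at `q = v^2`: the entry at the highest weight vector `e_0` of the partial quantum
trace, with the weights `v^{N-1-2x}` of `K`. -/
noncomputable def cjones (N n : ℕ) (w : List (ℕ × Bool)) (v : ℂ) : ℂ :=
  if h : 0 < N then
    tail (fun x : Fin N => v ^ ((N : ℤ) - 1 - 2 * (x : ℕ))) n
      (rep (crossP N v) (crossN N v) (n + 1) w) ⟨0, h⟩ ⟨0, h⟩ else 0

/-- The braid axis: strand `0` runs once around the strands `1`, `2` and `3`. -/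
def axisWord : List (ℕ × Bool) :=
  [(0, true), (1, true), (2, true), (2, true), (1, true), (0, true)]

/-- The word on four strands of the link `L(w)`: the axis, and then the braid `w` on the strands
`1`, `2` and `3`.  In `w` the letters `(0, ·)` and `(1, ·)` are the generators `s_1` and `s_2`. -/
def linkWord (w : List (ℕ × Bool)) : List (ℕ × Bool) := axisWord ++ w.map fun l => (l.1 + 1, l.2)

/-- The braid `(s_1 s_2⁻¹)^n` on three strands; `s_1`, `s_2` are the generators number `0` and `1`. -/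
def turk (n : ℕ) : List (ℕ × Bool) := (List.replicate n [(0, true), (1, false)]).flatten

/-- `m` full twists `(s_1 s_2 s_1)^{2 m}`, `m` an integer (the full twist is central, so that
`(s_1^{-1} s_2^{-1} s_1^{-1})^2` is its inverse). -/
def fullTwists (m : ℤ) : List (ℕ × Bool) :=
  (List.replicate m.natAbs [(0, decide (0 ≤ m)), (1, decide (0 ≤ m)), (0, decide (0 ≤ m)),
    (0, decide (0 ≤ m)), (1, decide (0 ≤ m)), (0, decide (0 ≤ m))]).flatten

/-- The braid `Δ^{2 m} (s_1 s_2⁻¹)^n` on three strands, `Δ = s_1 s_2 s_1`. -/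
def braid (n : ℕ) (m : ℤ) : List (ℕ × Bool) := fullTwists m ++ turk n

/-- `v_N = exp (π i / N)`, so that `q = v_N^2 = exp (2 π i / N)`. -/
noncomputable def root (N : ℕ) : ℂ := Complex.exp (Real.pi * Complex.I / N)

/-- The Kashaev invariant of `L(w)`. -/
noncomputable def kashaev (w : List (ℕ × Bool)) (N : ℕ) : ℂ := cjones N 3 (linkWord w) (root N)

/-- The invariants of the links `L_{m,n} = L(Δ^{2 m} (s_1 s_2⁻¹)^n)`. -/
noncomputable def J (n : ℕ) (m : ℤ) (N : ℕ) : ℂ := kashaev (braid n m) N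

/-- Lobachevsky's function `Λ(x) = -∫_0^x log |2 sin t| dt`. -/
noncomputable def Lob (x : ℝ) : ℝ := -∫ t in (0 : ℝ)..x, Real.log |2 * Real.sin t|

/-- The volume of the complement of `L_{m,n}`: `4 n` regular ideal tetrahedra. -/
noncomputable def V (n : ℕ) : ℝ := n * (8 * Lob (Real.pi / 6))

/-- `N^{3/2} e^{N V(n) / (2 π)}` -/
noncomputable def size (n N : ℕ) : ℝ :=
  (N : ℝ) ^ (3 / 2 : ℝ) * Real.exp (N * (V n / (2 * Real.pi)))

/-- `K(n) = √(√3 / (2 n)) / (p^n - p^{-n})` with `p = (√7 + √3) / 2`, `p^{-1} = (√7 - √3) / 2`. -/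
noncomputable def K (n : ℕ) : ℝ :=
  √(√3 / (2 * n)) / (((√7 + √3) / 2) ^ n - ((√7 - √3) / 2) ^ n)

/-- The modulus of `(1 - i √3 m / n)^{-1/2}`. -/
noncomputable def rad (n : ℕ) (m : ℤ) : ℝ := (1 + 3 * (m : ℝ) ^ 2 / n ^ 2) ^ (-(1 / 4) : ℝ)

/-- The argument of `(1 - i √3 m / n)^{-1/2}`. -/
noncomputable def ang (n : ℕ) (m : ℤ) : ℝ := Real.arctan (√3 * m / n) / 2

/-! ### Checks of the definitions (not part of the result) -/

/-- For `N = 2` the crossings satisfy the skein relation of the Jones polynomial. -/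
theorem skein (v : ℂ) (hv : v ≠ 0) (h1 : br v 1 ≠ 0) :
    v ^ 2 • crossP 2 v - (v ^ 2)⁻¹ • crossN 2 v =
      (v - v⁻¹) • (1 : Matrix (Fin 2 × Fin 2) (Fin 2 × Fin 2) ℂ) :=
  Pool.Agent.H550R3.Jones.taskSanSkein v hv h1

/-- The two crossings are inverse to each other. -/
theorem cross_inverse (N : ℕ) (v : ℂ) (hv : v ≠ 0)
    (h : ∀ k : ℕ, 0 < k → k < N → br v k ≠ 0) :
    crossP N v * crossN N v = 1 ∧ crossN N v * crossP N v = 1 :=
  Pool.Agent.H309R4.Jones.SanI.taskSanInv Pool.Agent.H345J.taskMod Pool.Agent.H345J.taskInv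
    Pool.Agent.H559R3.J.taskCross N v ⟨hv, h⟩

/-- The Yang-Baxter equation, for every colour. -/
theorem yang_baxter (N : ℕ) (v : ℂ) (hv : v ≠ 0) (h : ∀ k : ℕ, 0 < k → k < N → br v k ≠ 0) :
    gen (crossP N v) 3 0 * gen (crossP N v) 3 1 * gen (crossP N v) 3 0 =
      gen (crossP N v) 3 1 * gen (crossP N v) 3 0 * gen (crossP N v) 3 1 :=
  Pool.Agent.H927R2.J.SanYB.taskSanYB Pool.Agent.H345J.taskMod Pool.Agent.H345J.taskInt
    Pool.Agent.H345J.taskInv Pool.Agent.H667J.taskHex1 Pool.Agent.H22R3.J.taskNat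
    Pool.Agent.H559R3.J.taskCross N v ⟨hv, h⟩

/-- Curls may be removed: the framing is normalised. -/
theorem curl (N : ℕ) (v : ℂ) (hv : v ≠ 0) (h : ∀ k : ℕ, 0 < k → k < N → br v k ≠ 0) :
    (fun i j => ∑ x : Fin N, v ^ ((N : ℤ) - 1 - 2 * (x : ℕ)) * crossP N v (i, x) (j, x)) =
      (1 : Matrix (Fin N) (Fin N) ℂ) ∧
    (fun i j => ∑ x : Fin N, v ^ ((N : ℤ) - 1 - 2 * (x : ℕ)) * crossN N v (i, x) (j, x)) =
      (1 : Matrix (Fin N) (Fin N) ℂ) :=
  Pool.Agent.H105R3.JSan.taskSanCurl N v ⟨hv, h⟩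

/-- The unknot has the value `1`. -/
theorem unknot (N : ℕ) (v : ℂ) (hN : 0 < N) (hv : v ≠ 0)
    (h : ∀ k : ℕ, 0 < k → k < N → br v k ≠ 0) :
    cjones N 0 [] v = 1 ∧ cjones N 1 [(0, true)] v = 1 ∧ cjones N 1 [(0, false)] v = 1 :=
  Pool.Agent.H309R4.Jones.SanU.taskSanUnknot N v hN ⟨hv, h⟩

/-! ### Bridges -/

lemma J_eq (n : ℕ) (m : ℤ) : J n m = Run7.h116.VX.Jx n m := by
  have h : turk n = Pool.Agent.Y472.bw (Run7.h260.VC.wd n) := by
    rw [Pool.Agent.Y472.bw, Run7.h260.VC.wd, List.map_replicate]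
    rfl
  funext N
  unfold J kashaev braid
  rw [h]
  rfl

lemma cont {N : ℕ} (hN : 1 ≤ N) (w : List (ℕ × Bool)) :
    ContinuousAt (cjones N 3 (linkWord w)) (root N) := by
  have hv : root N = EvenVol.v0 N := rfl
  rw [hv]
  refine Pool.Agent.H756R3.J.taskCont N (EvenVol.v0 N) (Complex.exp_ne_zero _) ?_ _ _
  intro k hk0 hkN
  exact Pool.Agent.W715.VC.br_ne (by omega) (by omega)

/-- `N → ∞` through the odd integers. -/
def oddTop : Filter ℕ := atTop ⊓ 𝓟 {N | Odd N}

lemma odd_le : oddTop ≤ atTop := inf_le_left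

/-- **The complexified volume conjecture at odd roots of unity, with the asymptotic expansion to all
orders, for the closures of the braids `Δ^{2 m} (s_1 s_2⁻¹)^n` with their braid axes, for all
integers `m` and all `n ≥ 1`.**
(1) For every `N ≥ 1` and every word `w` on three strands the coloured Jones polynomial of `L(w)` is
continuous at `v_N`, so that `kashaev w N` is its value at `q = e^(2 π i / N)` in the usual sense.
(2) For all `n ≥ 1` and all integers `m` let `a_N = J(n, m, N)` be the Kashaev invariant of `L_{m,n}`.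
As `N → ∞` through the odd integers: `a_N ≠ 0` for large `N`, `π log (a_{N+2} / a_N)` tends to
`V(n) + 0 i` (principal logarithm), and `(2 π / N) log |a_N|` tends to `V(n)`, where
`V(n) = 8 n Λ(π/6) > 0` is the volume of the complement.
(3) There are numbers `φ_0, φ_1, …` (they depend on `n` and `m`) with
`a_N = N^{3/2} e^{N V(n) / (2 π)} (φ_0 + φ_1 / N + ⋯ + φ_{M-1} / N^{M-1} + O(N^{-M}))` for all `M`
(for all `N`, even or odd), and
`φ_0 = - K(n) rad(n, m) e^{i ang(n, m)} = - K(n) (1 - i √3 m / n)^{-1/2}`, `K(n) > 0`. -/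
theorem result :
    (∀ (N : ℕ) (w : List (ℕ × Bool)), 1 ≤ N → ContinuousAt (cjones N 3 (linkWord w)) (root N)) ∧
    (∀ (n : ℕ) (m : ℤ), 1 ≤ n → 0 < V n ∧ (∀ᶠ N in oddTop, J n m N ≠ 0) ∧
      Tendsto (fun N => Real.pi * Complex.log (J n m (N + 2) / J n m N)) oddTop
        (𝓝 (V n + Complex.I * 0)) ∧
      Tendsto (fun N : ℕ => 2 * Real.pi / N * Real.log ‖J n m N‖) oddTop (𝓝 (V n))) ∧
    (∀ (n : ℕ) (m : ℤ), 1 ≤ n → 0 < K n ∧ ∃ φ : ℕ → ℂ,
      φ 0 = -((K n * rad n m : ℝ) : ℂ) * Complex.exp (Complex.I * ang n m) ∧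
      ∀ M : ℕ, ∃ C : ℝ, ∀ᶠ N : ℕ in atTop,
        ‖J n m N / (size n N : ℂ) - ∑ j ∈ range M, φ j / (N : ℂ) ^ j‖ ≤ C / (N : ℝ) ^ M) := by
  refine ⟨fun N w hN => cont hN w, ?_, ?_⟩
  · intro n m hn
    have : NeZero n := ⟨by omega⟩
    rw [J_eq]
    obtain ⟨h1, -, h3, -, -, h6, -⟩ := Run7.h116.VX.facts hn m
    refine ⟨h1, h3.filter_mono odd_le, ?_, (h6.congr fun N => by ring).mono_left odd_le⟩
    have h := ((Run7.h116.VY.log_ratios n m 2).const_mul (Real.pi : ℂ)).mono_left odd_le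
    have hpi : (Real.pi : ℂ) ≠ 0 := by exact_mod_cast Real.pi_ne_zero
    have e : (Real.pi : ℂ) * (((2 : ℕ) : ℂ) * ((Run7.h116.VX.Vn n : ℝ) / (2 * Real.pi))) =
        ((Run7.h116.VX.Vn n : ℝ) : ℂ) + Complex.I * 0 := by
      push_cast
      field_simp
      ring
    rw [e] at h
    exact h
  · intro n m hn
    have : NeZero n := ⟨by omega⟩
    rw [J_eq]
    exact ⟨Run7.h116.VY.Kn_pos n, Run7.h116.VY.final n m⟩

end Pool.Agent.Results.MP_b30479_gt.TwistedBraidAxis
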